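import Mathlib

/-!
# Functoriality of homotopy groups (MP_25ef30_gt)
-/

set_option autoImplicit false
set_option linter.unusedSectionVars false

open scoped Topology unitInterval Topology.Homotopy

namespace Pool.PF

variable {W X Y Z : Type} [TopologicalSpace W] [TopologicalSpace X] [TopologicalSpace Y]
  [TopologicalSpace Z]

/-- relative homotopies and composition with a map into the source -/
theorem homotopicRel_precomp {f g : C(X, Y)} {S : Set X} (h : f.HomotopicRel g S) (γ : C(W, X))
    {S' : Set W} (hS : ∀ w ∈ S', γ w ∈ S) : (f.comp γ).HomotopicRel (g.comp γ) S' := by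
  obtain ⟨H⟩ := h
  exact ⟨⟨H.toHomotopy.compContinuousMap γ, fun t w hw => H.prop' t (γ w) (hS w hw)⟩⟩

/-- pointed maps -/
structure Pt (x : X) (y : Y) where
  /-- the map -/
  f : C(X, Y)
  pt : f x = y

/-- the pointed map given by a map and a point of its source -/
def Pt.of (f : C(X, Y)) (x : X) : Pt x (f x) := ⟨f, rfl⟩

/-- pointed homotopy -/
def PHom {x : X} {y : Y} (f g : Pt x y) : Prop := f.f.HomotopicRel g.f {x}

/-- the image of a generalized loop -/
def push {n : ℕ} {x : X} {y : Y} (f : Pt x y) (γ : GenLoop (Fin n) X x) : GenLoop (Fin n) Y y :=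
  ⟨f.f.comp γ.1, fun t ht => (congrArg f.f (γ.2 t ht)).trans f.pt⟩

theorem push_homotopic {n : ℕ} {x : X} {y : Y} (f : Pt x y) (γ γ' : GenLoop (Fin n) X x)
    (hγ : GenLoop.Homotopic γ γ') : GenLoop.Homotopic (push f γ) (push f γ') :=
  ContinuousMap.HomotopicRel.comp_continuousMap hγ f.f

/-- the homotopy groups -/
def PiG (n : ℕ) (X : Type) [TopologicalSpace X] (x : X) : Type := HomotopyGroup.Pi n X x

/-- the map of homotopy groups induced by a pointed map -/
def piMap (n : ℕ) {x : X} {y : Y} (f : Pt x y) : PiG n X x → PiG n Y y :=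
  Quotient.map (push f) (push_homotopic f)

/-- the homotopy groups in degrees at least two are commutative groups -/
noncomputable instance (m : ℕ) (x : X) : CommGroup (PiG (m + 2) X x) :=
  HomotopyGroup.commGroup (N := Fin (m + 2))

theorem piMap_comp (n : ℕ) {x : X} {y : Y} {z : Z} (f : Pt x y) (g : Pt y z)
    (h : Pt x z) (e : g.f.comp f.f = h.f) (a : PiG n X x) :
    piMap n g (piMap n f a) = piMap n h a := by
  induction a using Quotient.ind with
  | _ γ =>
    refine congrArg (Quotient.mk _) (Subtype.ext ?_)
    show g.f.comp (f.f.comp γ.1) = h.f.comp γ.1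
    rw [← e]
    rfl

theorem piMap_congr (n : ℕ) {x : X} {y : Y} {f g : Pt x y} (h : PHom f g) (a : PiG n X x) :
    piMap n f a = piMap n g a := by
  induction a using Quotient.ind with
  | _ γ => exact Quotient.sound (homotopicRel_precomp h γ.1 fun w hw => γ.2 w hw)

theorem push_transAt {n : ℕ} (i : Fin n) {x : X} {y : Y} (f : Pt x y)
    (γ γ' : GenLoop (Fin n) X x) :
    push f (GenLoop.transAt i γ γ') = GenLoop.transAt i (push f γ) (push f γ') := by
  apply GenLoop.ext
  intro t
  show f.f (GenLoop.transAt i γ γ' t) = GenLoop.transAt i (push f γ) (push f γ') t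
  unfold GenLoop.transAt
  rw [GenLoop.coe_copy, GenLoop.coe_copy, apply_ite f.f]
  rfl

theorem piMap_mul (m : ℕ) {x : X} {y : Y} (f : Pt x y) (a b : PiG (m + 2) X x) :
    piMap (m + 2) f (a * b) = piMap (m + 2) f a * piMap (m + 2) f b := by
  induction a using Quotient.ind with
  | _ γ =>
    induction b using Quotient.ind with
    | _ γ' =>
      have e1 := HomotopyGroup.mul_spec (N := Fin (m + 2)) (X := X) (x := x) (i := 0) (p := γ)
        (q := γ')
      have e2 := HomotopyGroup.mul_spec (N := Fin (m + 2)) (X := Y) (x := y) (i := 0)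
        (p := push f γ) (q := push f γ')
      refine (congrArg (piMap (m + 2) f) e1).trans (Eq.trans ?_ e2.symm)
      show (Quotient.mk _ (push f (GenLoop.transAt 0 γ' γ)) : HomotopyGroup.Pi (m + 2) Y y) = _
      rw [push_transAt]

/-- the homomorphism of homotopy groups induced by a pointed map -/
noncomputable def piHom (m : ℕ) {x : X} {y : Y} (f : Pt x y) :
    PiG (m + 2) X x →* PiG (m + 2) Y y :=
  MonoidHom.mk' (piMap (m + 2) f) (piMap_mul m f)

end Pool.PF
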