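import Mathlib

/-!
# Simplicial models of classifying spaces (MP_25ef30_gt)

Simplicial sets and their realizations, Borel constructions of topological groups and of the same
groups made discrete, homotopy colimits, isomorphisms of homology with coefficients in `ℤ/p`.
-/

set_option autoImplicit false
set_option linter.unusedSectionVars false

open scoped Topology

namespace Pool.PF

/-! ### Discrete topologies -/

/-- the set `α` with the discrete topology -/
def Disc (α : Type) : Type := α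

instance (α : Type) : TopologicalSpace (Disc α) := ⊥

instance (α : Type) : DiscreteTopology (Disc α) := ⟨rfl⟩

/-! ### Simplicial sets -/

/-- monotone maps `[k] → [n]` -/
def Mono (k n : ℕ) : Type := Fin (k + 1) →o Fin (n + 1)

/-- the value of a monotone map -/
def Mono.ap {k n : ℕ} (θ : Mono k n) (i : Fin (k + 1)) : Fin (n + 1) := OrderHom.toFun θ i

theorem Mono.le {k n : ℕ} (θ : Mono k n) {i j : Fin (k + 1)} (h : i ≤ j) : θ.ap i ≤ θ.ap j :=
  OrderHom.monotone θ h

/-- the identity -/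
def Mono.one (n : ℕ) : Mono n n := OrderHom.id

/-- composition: first `θ`, then `φ` -/
def Mono.mul {j k n : ℕ} (θ : Mono j k) (φ : Mono k n) : Mono j n := OrderHom.comp φ θ

/-- simplicial sets -/
structure SS where
  /-- the simplices -/
  X : ℕ → Type
  /-- faces and degeneracies -/
  act : ∀ {k n : ℕ}, Mono k n → X n → X k
  act_one : ∀ {n : ℕ} (x : X n), act (Mono.one n) x = x
  act_mul : ∀ {j k n : ℕ} (θ : Mono j k) (φ : Mono k n) (x : X n),
    act (θ.mul φ) x = act θ (act φ x)

/-- maps of simplicial sets -/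
structure SMap (S T : SS) where
  /-- the maps of the simplices -/
  f : ∀ n : ℕ, S.X n → T.X n
  nat : ∀ {k n : ℕ} (θ : Mono k n) (x : S.X n), f k (S.act θ x) = T.act θ (f n x)

theorem SMap.ext' {S T : SS} {a b : SMap S T} (h : ∀ n x, a.f n x = b.f n x) : a = b := by
  have hf : a.f = b.f := by
    funext n x
    exact h n x
  cases a
  cases b
  cases hf
  rfl

/-- composition -/
def SMap.comp {S T U : SS} (b : SMap T U) (a : SMap S T) : SMap S U where
  f n x := b.f n (a.f n x)
  nat θ x := by rw [a.nat, b.nat]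

/-- the topological simplex -/
def Dl (n : ℕ) : Type := stdSimplex ℝ (Fin (n + 1))

instance (n : ℕ) : TopologicalSpace (Dl n) := instTopologicalSpaceSubtype

/-- the maps of the topological simplices -/
noncomputable def dl {k n : ℕ} (θ : Mono k n) (t : Dl k) : Dl n := stdSimplex.map θ.ap t

theorem dl_continuous {k n : ℕ} (θ : Mono k n) : Continuous (dl θ) :=
  stdSimplex.continuous_map θ.ap

theorem dl_one (n : ℕ) (t : Dl n) : dl (Mono.one n) t = t := stdSimplex.map_id_apply _

theorem dl_mul {j k n : ℕ} (θ : Mono j k) (φ : Mono k n) (t : Dl j) :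
    dl (θ.mul φ) t = dl φ (dl θ t) :=
  (stdSimplex.map_comp_apply θ.ap φ.ap _).symm

/-- the disjoint union of the simplices of a simplicial set -/
def Cells (S : SS) : Type := Σ n : ℕ, Disc (S.X n) × Dl n

instance (S : SS) : TopologicalSpace (Cells S) := instTopologicalSpaceSigma

/-- the point `t` of the simplex `x` -/
def cell (S : SS) (n : ℕ) (x : S.X n) (t : Dl n) : Cells S := ⟨n, x, t⟩

/-- the identifications in the realization -/
inductive Glue (S : SS) : Cells S → Cells S → Prop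
  | mk {k n : ℕ} (θ : Mono k n) (x : S.X n) (t : Dl k) :
    Glue S (cell S k (S.act θ x) t) (cell S n x (dl θ t))

/-- the geometric realization -/
def Rl (S : SS) : Type := Quot (Glue S)

instance (S : SS) : TopologicalSpace (Rl S) := instTopologicalSpaceQuot

/-- the map of the cells given by a map of simplicial sets -/
def cellMap {S T : SS} (f : SMap S T) (a : Cells S) : Cells T := cell T a.1 (f.f a.1 a.2.1) a.2.2

theorem cellMap_continuous {S T : SS} (f : SMap S T) : Continuous (cellMap f) := by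
  refine continuous_sigma fun n => ?_
  let g : Disc (S.X n) → Disc (T.X n) := f.f n
  have hg : Continuous g := continuous_of_discreteTopology
  exact continuous_sigmaMk.comp (hg.prodMap continuous_id)

theorem cellMap_glue {S T : SS} (f : SMap S T) (a b : Cells S) (h : Glue S a b) :
    Glue T (cellMap f a) (cellMap f b) := by
  induction h with
  | mk θ x t =>
    show Glue T (cell T _ (f.f _ (S.act θ x)) t) _
    rw [f.nat]
    exact Glue.mk θ (f.f _ x) t

theorem quotMap_continuous {S T : SS} (f : SMap S T) :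
    Continuous (Quot.map (cellMap f) (cellMap_glue f)) :=
  continuous_quot_lift _ (continuous_quot_mk.comp (cellMap_continuous f))

/-- the realization of a map -/
def rl {S T : SS} (f : SMap S T) : C(Rl S, Rl T) :=
  ⟨Quot.map (cellMap f) (cellMap_glue f), quotMap_continuous f⟩

theorem rl_comp {S T U : SS} (f : SMap S T) (g : SMap T U) :
    rl (g.comp f) = (rl g).comp (rl f) := by
  ext x
  induction x using Quot.ind with
  | mk a => rfl

/-- the point of the realization given by a vertex -/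
noncomputable def vtx {S : SS} (s : S.X 0) : Rl S :=
  Quot.mk _ (cell S 0 s (default : stdSimplex ℝ (Fin 1)))

theorem rl_vtx {S T : SS} (f : SMap S T) (s : S.X 0) : rl f (vtx s) = vtx (f.f 0 s) := rfl

/-! ### Singular simplices -/

section sing

variable {Y Z : Type} [TopologicalSpace Y] [TopologicalSpace Z]

/-- singular simplices -/
def Sg (Y : Type) [TopologicalSpace Y] (n : ℕ) : Type := C(Dl n, Y)

/-- the value of a singular simplex -/
def Sg.ev {n : ℕ} (s : Sg Y n) (t : Dl n) : Y := ContinuousMap.toFun s t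

/-- faces and degeneracies -/
noncomputable def Sg.act {k n : ℕ} (θ : Mono k n) (s : Sg Y n) : Sg Y k :=
  ContinuousMap.comp s ⟨dl θ, dl_continuous θ⟩

/-- the constant singular simplex -/
def Sg.const (y : Y) (n : ℕ) : Sg Y n := ContinuousMap.const (Dl n) y

/-- the image of a singular simplex -/
def Sg.map (f : C(Y, Z)) {n : ℕ} (s : Sg Y n) : Sg Z n := ContinuousMap.comp f s

theorem Sg.ext {n : ℕ} {s s' : Sg Y n} (h : ∀ t, s.ev t = s'.ev t) : s = s' :=
  ContinuousMap.ext h

end sing

/-! ### Borel constructions -/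

section borel

variable (G X : Type) [Group G] [TopologicalSpace G] [TopologicalSpace X] [SMul G X]

/-- simplices of `E G × X`: tuples of singular simplices of `G` and a singular simplex of `X` -/
structure BSim (n : ℕ) where
  /-- the singular simplices of `G` -/
  g : Fin (n + 1) → Sg G n
  /-- the singular simplex of `X` -/
  x : Sg X n

/-- two simplices of `E G × X` differ by the action of a singular simplex of `G` -/
def BRel (n : ℕ) (a b : BSim G X n) : Prop :=
  ∃ h : Sg G n, (∀ i t, (b.g i).ev t = h.ev t * (a.g i).ev t) ∧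
    ∀ t, b.x.ev t = h.ev t • a.x.ev t

variable {G X} in
/-- faces and degeneracies of simplices of `E G × X` -/
noncomputable def BSim.act {k n : ℕ} (θ : Mono k n) (a : BSim G X n) : BSim G X k :=
  ⟨fun i => (a.g (θ.ap i)).act θ, a.x.act θ⟩

theorem BRel.act {k n : ℕ} (θ : Mono k n) (a b : BSim G X n) (h : BRel G X n a b) :
    BRel G X k (a.act θ) (b.act θ) := by
  obtain ⟨h, h1, h2⟩ := h
  exact ⟨h.act θ, fun i t => h1 _ _, fun t => h2 _⟩

/-- the simplices of the Borel construction -/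
def BQ (n : ℕ) : Type := Quot (BRel G X n)

variable {G X} in
/-- faces and degeneracies in the Borel construction -/
noncomputable def BQ.act {k n : ℕ} (θ : Mono k n) : BQ G X n → BQ G X k :=
  Quot.map (BSim.act θ) (BRel.act G X θ)

theorem BSim.ext' {n : ℕ} {a b : BSim G X n} (h1 : ∀ i t, (a.g i).ev t = (b.g i).ev t)
    (h2 : ∀ t, a.x.ev t = b.x.ev t) : a = b := by
  cases a with
  | mk g x =>
    cases b with
    | mk g' x' =>
      have e1 : g = g' := funext fun i => Sg.ext fun t => h1 i t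
      have e2 : x = x' := Sg.ext h2
      subst e1
      subst e2
      rfl

theorem BQ.act_one {n : ℕ} (x : BQ G X n) : BQ.act (Mono.one n) x = x := by
  induction x using Quot.ind with
  | mk a =>
    refine congrArg (Quot.mk _) (BSim.ext' G X (fun i t => ?_) (fun t => ?_))
    · exact congrArg (a.g i).ev (dl_one _ t)
    · exact congrArg a.x.ev (dl_one _ t)

theorem BQ.act_mul {j k n : ℕ} (θ : Mono j k) (φ : Mono k n) (x : BQ G X n) :
    BQ.act (θ.mul φ) x = BQ.act θ (BQ.act φ x) := by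
  induction x using Quot.ind with
  | mk a =>
    refine congrArg (Quot.mk _) (BSim.ext' G X (fun i t => ?_) (fun t => ?_))
    · exact congrArg (a.g _).ev (dl_mul θ φ t)
    · exact congrArg a.x.ev (dl_mul θ φ t)

/-- the Borel construction `E G ×_G X` of the space `X` with an action of the topological group
`G`, as a simplicial set -/
noncomputable def Bor : SS := ⟨BQ G X, BQ.act, BQ.act_one G X, BQ.act_mul G X⟩

variable {G X}
variable {H Y : Type} [Group H] [TopologicalSpace H] [TopologicalSpace Y] [SMul H Y]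

/-- the map of simplices given by a homomorphism `φ` and an equivariant map `ψ` -/
def BSim.map (φ : G →ₜ* H) (ψ : C(X, Y)) (n : ℕ) (a : BSim G X n) : BSim H Y n :=
  ⟨fun i => (a.g i).map φ.toContinuousMap, a.x.map ψ⟩

/-- the map `ψ` is equivariant with respect to `φ` -/
def Equi (φ : G →ₜ* H) (ψ : C(X, Y)) : Prop := ∀ g x, ψ (g • x) = φ g • ψ x

theorem BRel.map {φ : G →ₜ* H} {ψ : C(X, Y)} (hψ : Equi φ ψ) (n : ℕ) (a b : BSim G X n)
    (h : BRel G X n a b) : BRel H Y n (a.map φ ψ) (b.map φ ψ) := by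
  obtain ⟨h, h1, h2⟩ := h
  exact ⟨h.map φ.toContinuousMap, fun i t => (congrArg φ (h1 i t)).trans (map_mul φ _ _),
    fun t => (congrArg ψ (h2 t)).trans (hψ _ _)⟩

/-- the map of simplices of Borel constructions -/
def BQ.map {φ : G →ₜ* H} {ψ : C(X, Y)} (hψ : Equi φ ψ) (n : ℕ) : BQ G X n → BQ H Y n :=
  Quot.map (BSim.map φ ψ n) (BRel.map hψ n)

theorem BQ.map_act {φ : G →ₜ* H} {ψ : C(X, Y)} (hψ : Equi φ ψ) {k n : ℕ} (θ : Mono k n)
    (x : BQ G X n) : BQ.map hψ k (BQ.act θ x) = BQ.act θ (BQ.map hψ n x) := by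
  induction x using Quot.ind with
  | mk a => rfl

/-- the map of Borel constructions induced by a homomorphism `φ` and an equivariant map `ψ` -/
def Bor.map {φ : G →ₜ* H} {ψ : C(X, Y)} (hψ : Equi φ ψ) : SMap (Bor G X) (Bor H Y) :=
  ⟨BQ.map hψ, BQ.map_act hψ⟩

end borel

/-! ### Groups made discrete -/

instance (G : Type) [h : Group G] : Group (Disc G) := h

instance (G X : Type) [h : SMul G X] : SMul (Disc G) (Disc X) := h

/-- the identity map of a group made discrete -/
def discG (G : Type) [Group G] [TopologicalSpace G] : Disc G →ₜ* G where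
  toFun g := g
  map_one' := rfl
  map_mul' _ _ := rfl
  continuous_toFun := continuous_of_discreteTopology

/-- the identity map of a space made discrete -/
def discX (X : Type) [TopologicalSpace X] : C(Disc X, X) where
  toFun x := x
  continuous_toFun := continuous_of_discreteTopology

section classifying

variable (G : Type) [Group G] [TopologicalSpace G]

theorem equi_pt : Equi (discG G) (ContinuousMap.id PUnit.{1}) := fun _ _ => rfl

theorem equi_disc (X : Type) [TopologicalSpace X] [SMul G X] : Equi (discG G) (discX X) :=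
  fun _ _ => rfl

theorem equi_const (X : Type) [TopologicalSpace X] [SMul G X] :
    Equi (ContinuousMonoidHom.id G) (ContinuousMap.const X PUnit.unit.{1}) := fun _ _ => rfl

/-- the classifying space -/
noncomputable def BG : SS := Bor G PUnit.{1}

/-- the canonical map `B G^δ → B G` -/
noncomputable def BGdisc : SMap (BG (Disc G)) (BG G) := Bor.map (equi_pt G)

/-- the canonical map `E G^δ ×_{G^δ} X^δ → E G ×_G X` -/
noncomputable def BorDisc (X : Type) [TopologicalSpace X] [SMul G X] :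
    SMap (Bor (Disc G) (Disc X)) (Bor G X) := Bor.map (equi_disc G X)

/-- the canonical map `E G ×_G X → B G` -/
noncomputable def BorPt (X : Type) [TopologicalSpace X] [SMul G X] : SMap (Bor G X) (BG G) :=
  Bor.map (equi_const G X)

/-- the vertex of the classifying space of a discrete group -/
noncomputable def BGpt (G : Type) [Group G] : (BG (Disc G)).X 0 :=
  Quot.mk _ ⟨fun _ => Sg.const 1 0, Sg.const PUnit.unit 0⟩

/-- the classifying space of a discrete group has one vertex -/
theorem BG_vertex (G : Type) [Group G] (a b : (BG (Disc G)).X 0) : a = b := by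
  induction a using Quot.ind with
  | mk a =>
    induction b using Quot.ind with
    | mk b =>
      have hc : Continuous fun t => (b.g 0).ev t * ((a.g 0).ev t)⁻¹ := by
        have h : Continuous fun z : Disc G × Disc G => z.1 * z.2⁻¹ :=
          continuous_of_discreteTopology
        exact h.comp ((ContinuousMap.continuous_toFun (b.g 0)).prodMk
          (ContinuousMap.continuous_toFun (a.g 0)))
      refine Quot.sound ⟨(⟨_, hc⟩ : C(Dl 0, Disc G)), ?_, fun t => rfl⟩
      intro i t
      have hi : i = 0 := Subsingleton.elim (α := Fin 1) i 0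
      subst hi
      show (b.g 0).ev t = (b.g 0).ev t * ((a.g 0).ev t)⁻¹ * (a.g 0).ev t
      rw [inv_mul_cancel_right]

end classifying

/-! ### Homotopy colimits -/

/-- small categories -/
structure Idx where
  /-- objects -/
  O : Type
  /-- morphisms -/
  H : O → O → Type
  /-- identities -/
  one : ∀ r, H r r
  /-- composition -/
  mul : ∀ {r s t : O}, H r s → H s t → H r t
  one_mul : ∀ {r s : O} (f : H r s), mul (one r) f = f
  mul_one : ∀ {r s : O} (f : H r s), mul f (one s) = f
  assoc : ∀ {r s t u : O} (f : H r s) (g : H s t) (h : H t u), mul (mul f g) h = mul f (mul g h)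

/-- chains `r_0 → … → r_n`, with all compositions -/
structure Chain (R : Idx) (n : ℕ) where
  /-- the objects -/
  r : Fin (n + 1) → R.O
  /-- the morphisms -/
  f : ∀ {i j}, i ≤ j → R.H (r i) (r j)
  f_one : ∀ i, f (le_refl i) = R.one (r i)
  f_mul : ∀ {i j k} (h : i ≤ j) (h' : j ≤ k), f (h.trans h') = R.mul (f h) (f h')

/-- faces and degeneracies of chains -/
def Chain.act {R : Idx} {k n : ℕ} (θ : Mono k n) (σ : Chain R n) : Chain R k :=
  ⟨fun i => σ.r (θ.ap i), fun h => σ.f (θ.le h), fun i => σ.f_one (θ.ap i),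
    fun h h' => σ.f_mul (θ.le h) (θ.le h')⟩

/-- diagrams of simplicial sets -/
structure Dia (R : Idx) where
  /-- the simplicial sets -/
  D : R.O → SS
  /-- the maps -/
  m : ∀ {r s : R.O}, R.H r s → SMap (D r) (D s)
  m_one : ∀ (r : R.O) (n : ℕ) (x : (D r).X n), (m (R.one r)).f n x = x
  m_mul : ∀ {r s t : R.O} (f : R.H r s) (g : R.H s t) (n : ℕ) (x : (D r).X n),
    (m (R.mul f g)).f n x = (m g).f n ((m f).f n x)

/-- maps of diagrams -/
structure DMap {R : Idx} (D D' : Dia R) where
  /-- the maps -/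
  a : ∀ r : R.O, SMap (D.D r) (D'.D r)
  nat : ∀ {r s : R.O} (f : R.H r s) (n : ℕ) (x : (D.D r).X n),
    (a s).f n ((D.m f).f n x) = (D'.m f).f n ((a r).f n x)

section hocolim

variable {R : Idx} (D : Dia R)

/-- simplices of the homotopy colimit: a chain `r_0 → … → r_n` and an `n`-simplex of `D r_0` -/
structure HSim (n : ℕ) where
  /-- the chain -/
  σ : Chain R n
  /-- the simplex -/
  x : (D.D (σ.r 0)).X n

variable {D} in
/-- faces and degeneracies of the homotopy colimit -/
def HSim.act {k n : ℕ} (θ : Mono k n) (s : HSim D n) : HSim D k :=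
  ⟨s.σ.act θ, (D.m (s.σ.f (Fin.zero_le (θ.ap 0)))).f k ((D.D (s.σ.r 0)).act θ s.x)⟩

theorem HSim.act_one {n : ℕ} (s : HSim D n) : s.act (Mono.one n) = s := by
  cases s with
  | mk σ x =>
    have h : (D.m (σ.f (Fin.zero_le ((Mono.one n).ap 0)))).f n
        ((D.D (σ.r 0)).act (Mono.one n) x) = x := by
      show (D.m (σ.f (le_refl 0))).f n _ = x
      rw [σ.f_one, D.m_one, (D.D (σ.r 0)).act_one]
    show HSim.mk σ _ = HSim.mk σ x
    rw [h]

theorem HSim.act_mul {j k n : ℕ} (θ : Mono j k) (φ : Mono k n) (s : HSim D n) :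
    s.act (θ.mul φ) = (s.act φ).act θ := by
  cases s with
  | mk σ x =>
    have h : (D.m (σ.f (Fin.zero_le ((θ.mul φ).ap 0)))).f j
        ((D.D (σ.r 0)).act (θ.mul φ) x) =
        (D.m (σ.f (φ.le (Fin.zero_le (θ.ap 0))))).f j ((D.D (σ.r (φ.ap 0))).act θ
          ((D.m (σ.f (Fin.zero_le (φ.ap 0)))).f k ((D.D (σ.r 0)).act φ x))) := by
      rw [← (D.m (σ.f (Fin.zero_le (φ.ap 0)))).nat, ← (D.D (σ.r 0)).act_mul, ← D.m_mul,
        ← σ.f_mul]
      rfl
    show HSim.mk (σ.act (θ.mul φ)) _ = HSim.mk (σ.act (θ.mul φ)) _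
    exact congrArg (HSim.mk (σ.act (θ.mul φ))) h

/-- the homotopy colimit of Bousfield and Kan -/
def Hoc : SS := ⟨HSim D, HSim.act, HSim.act_one D, HSim.act_mul D⟩

variable {D} {D' : Dia R}

/-- the map of simplices of homotopy colimits -/
def HSim.map (α : DMap D D') (n : ℕ) (s : HSim D n) : HSim D' n := ⟨s.σ, (α.a (s.σ.r 0)).f n s.x⟩

theorem HSim.map_act (α : DMap D D') {k n : ℕ} (θ : Mono k n) (s : HSim D n) :
    HSim.map α k (s.act θ) = (HSim.map α n s).act θ := by
  refine congrArg (HSim.mk (s.σ.act θ)) ?_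
  show (α.a _).f k ((D.m (s.σ.f (Fin.zero_le (θ.ap 0)))).f k ((D.D (s.σ.r 0)).act θ s.x)) =
    (D'.m (s.σ.f (Fin.zero_le (θ.ap 0)))).f k
      ((D'.D (s.σ.r 0)).act θ ((α.a (s.σ.r 0)).f n s.x))
  rw [α.nat, (α.a (s.σ.r 0)).nat]

/-- the map of homotopy colimits induced by a map of diagrams -/
def Hoc.map (α : DMap D D') : SMap (Hoc D) (Hoc D') := ⟨HSim.map α, HSim.map_act α⟩

variable (D) in
/-- cocones -/
structure Cocone (T : SS) where
  /-- the maps -/
  t : ∀ r : R.O, SMap (D.D r) T
  nat : ∀ {r s : R.O} (f : R.H r s) (n : ℕ) (x : (D.D r).X n),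
    (t s).f n ((D.m f).f n x) = (t r).f n x

theorem Cocone.act {T : SS} (c : Cocone D T) {k n : ℕ} (θ : Mono k n) (s : HSim D n) :
    (c.t ((s.act θ).σ.r 0)).f k (s.act θ).x = T.act θ ((c.t (s.σ.r 0)).f n s.x) := by
  show (c.t _).f k ((D.m (s.σ.f (Fin.zero_le (θ.ap 0)))).f k ((D.D (s.σ.r 0)).act θ s.x)) =
    T.act θ ((c.t (s.σ.r 0)).f n s.x)
  rw [c.nat, (c.t (s.σ.r 0)).nat]

/-- the map from the homotopy colimit given by a cocone -/
def Hoc.desc {T : SS} (c : Cocone D T) : SMap (Hoc D) T :=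
  ⟨fun n s => (c.t (s.σ.r 0)).f n s.x, c.act⟩

end hocolim

/-! ### Diagrams of orbits -/

/-- a diagram of orbits `G ⧸ P r` of the topological group `G` and equivariant maps -/
structure OrbDiag (G : Type) [Group G] [TopologicalSpace G] where
  /-- the index category -/
  R : Idx
  /-- the subgroups -/
  P : R.O → Subgroup G
  /-- the maps -/
  F : ∀ {r s : R.O}, R.H r s → C(G ⧸ P r, G ⧸ P s)
  equi : ∀ {r s : R.O} (f : R.H r s), Equi (ContinuousMonoidHom.id G) (F f)
  F_one : ∀ (r : R.O) (x : G ⧸ P r), F (R.one r) x = x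
  F_mul : ∀ {r s t : R.O} (f : R.H r s) (g : R.H s t) (x : G ⧸ P r),
    F (R.mul f g) x = F g (F f x)

namespace OrbDiag

variable {G : Type} [Group G] [TopologicalSpace G] (𝒟 : OrbDiag G)

theorem top_one (r : 𝒟.R.O) (n : ℕ) (x : (Bor G (G ⧸ 𝒟.P r)).X n) :
    (Bor.map (𝒟.equi (𝒟.R.one r))).f n x = x := by
  induction x using Quot.ind with
  | mk a => exact congrArg (Quot.mk _) (BSim.ext' _ _ (fun i t => rfl) fun t => 𝒟.F_one r _)

theorem top_mul {r s t : 𝒟.R.O} (f : 𝒟.R.H r s) (g : 𝒟.R.H s t) (n : ℕ)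
    (x : (Bor G (G ⧸ 𝒟.P r)).X n) : (Bor.map (𝒟.equi (𝒟.R.mul f g))).f n x =
      (Bor.map (𝒟.equi g)).f n ((Bor.map (𝒟.equi f)).f n x) := by
  induction x using Quot.ind with
  | mk a => exact congrArg (Quot.mk _) (BSim.ext' _ _ (fun i t => rfl) fun t => 𝒟.F_mul f g _)

/-- the diagram of the Borel constructions `E G ×_G (G ⧸ P r)` -/
noncomputable def top : Dia 𝒟.R :=
  ⟨fun r => Bor G (G ⧸ 𝒟.P r), fun f => Bor.map (𝒟.equi f), 𝒟.top_one, 𝒟.top_mul⟩

theorem top_cocone {r s : 𝒟.R.O} (f : 𝒟.R.H r s) (n : ℕ) (x : (Bor G (G ⧸ 𝒟.P r)).X n) :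
    (BorPt G (G ⧸ 𝒟.P s)).f n ((Bor.map (𝒟.equi f)).f n x) = (BorPt G (G ⧸ 𝒟.P r)).f n x := by
  induction x using Quot.ind with
  | mk a => rfl

/-- the canonical map `hocolim E G ×_G (G ⧸ P r) → B G` -/
noncomputable def topBG : SMap (Hoc 𝒟.top) (BG G) :=
  Hoc.desc (D := 𝒟.top) ⟨fun r => BorPt G (G ⧸ 𝒟.P r), 𝒟.top_cocone⟩

/-! The same diagram for the discrete topologies. -/

/-- the map `F f` for the discrete topologies -/
def Fd {r s : 𝒟.R.O} (f : 𝒟.R.H r s) : C(Disc (G ⧸ 𝒟.P r), Disc (G ⧸ 𝒟.P s)) :=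
  ⟨fun x => 𝒟.F f x, continuous_of_discreteTopology⟩

theorem equid {r s : 𝒟.R.O} (f : 𝒟.R.H r s) :
    Equi (ContinuousMonoidHom.id (Disc G)) (𝒟.Fd f) := fun g x => 𝒟.equi f g x

theorem disc_one (r : 𝒟.R.O) (n : ℕ) (x : (Bor (Disc G) (Disc (G ⧸ 𝒟.P r))).X n) :
    (Bor.map (𝒟.equid (𝒟.R.one r))).f n x = x := by
  induction x using Quot.ind with
  | mk a => exact congrArg (Quot.mk _) (BSim.ext' _ _ (fun i t => rfl) fun t => 𝒟.F_one r _)

theorem disc_mul {r s t : 𝒟.R.O} (f : 𝒟.R.H r s) (g : 𝒟.R.H s t) (n : ℕ)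
    (x : (Bor (Disc G) (Disc (G ⧸ 𝒟.P r))).X n) : (Bor.map (𝒟.equid (𝒟.R.mul f g))).f n x =
      (Bor.map (𝒟.equid g)).f n ((Bor.map (𝒟.equid f)).f n x) := by
  induction x using Quot.ind with
  | mk a => exact congrArg (Quot.mk _) (BSim.ext' _ _ (fun i t => rfl) fun t => 𝒟.F_mul f g _)

/-- the diagram of the Borel constructions `E G^δ ×_{G^δ} (G ⧸ P r)^δ` -/
noncomputable def disc : Dia 𝒟.R :=
  ⟨fun r => Bor (Disc G) (Disc (G ⧸ 𝒟.P r)), fun f => Bor.map (𝒟.equid f), 𝒟.disc_one,
    𝒟.disc_mul⟩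

theorem disc_cocone {r s : 𝒟.R.O} (f : 𝒟.R.H r s) (n : ℕ)
    (x : (Bor (Disc G) (Disc (G ⧸ 𝒟.P r))).X n) :
    (BorPt (Disc G) (Disc (G ⧸ 𝒟.P s))).f n ((Bor.map (𝒟.equid f)).f n x) =
      (BorPt (Disc G) (Disc (G ⧸ 𝒟.P r))).f n x := by
  induction x using Quot.ind with
  | mk a => rfl

/-- the canonical map `hocolim E G^δ ×_{G^δ} (G ⧸ P r)^δ → B G^δ` -/
noncomputable def discBG : SMap (Hoc 𝒟.disc) (BG (Disc G)) :=
  Hoc.desc (D := 𝒟.disc) ⟨fun r => BorPt (Disc G) (Disc (G ⧸ 𝒟.P r)), 𝒟.disc_cocone⟩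

theorem disc_top_nat {r s : 𝒟.R.O} (f : 𝒟.R.H r s) (n : ℕ)
    (x : (Bor (Disc G) (Disc (G ⧸ 𝒟.P r))).X n) :
    (BorDisc G (G ⧸ 𝒟.P s)).f n ((Bor.map (𝒟.equid f)).f n x) =
      (Bor.map (𝒟.equi f)).f n ((BorDisc G (G ⧸ 𝒟.P r)).f n x) := by
  induction x using Quot.ind with
  | mk a => rfl

/-- the canonical map of diagrams -/
noncomputable def disc_top : DMap 𝒟.disc 𝒟.top :=
  ⟨fun r => BorDisc G (G ⧸ 𝒟.P r), 𝒟.disc_top_nat⟩

theorem square : (BGdisc G).comp 𝒟.discBG = 𝒟.topBG.comp (Hoc.map 𝒟.disc_top) := by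
  apply SMap.ext'
  rintro n ⟨σ, x⟩
  induction x using Quot.ind with
  | mk a => rfl

theorem nonempty [h : Nonempty 𝒟.R.O] : Nonempty ((Hoc 𝒟.disc).X 0) := by
  obtain ⟨r⟩ := h
  refine ⟨⟨⟨fun _ => r, fun _ => 𝒟.R.one r, fun _ => rfl, fun _ _ => (𝒟.R.one_mul _).symm⟩, ?_⟩⟩
  exact Quot.mk _ ⟨fun _ => Sg.const 1 0,
    Sg.const (Y := Disc (G ⧸ 𝒟.P r)) ((1 : G) : G ⧸ 𝒟.P r) 0⟩

end OrbDiag

/-! ### Homology isomorphisms -/

/-- the map `f` induces isomorphisms of singular homology with coefficients in `ℤ/p` -/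
def ModPIso (p : ℕ) {X Y : Type} [TopologicalSpace X] [TopologicalSpace Y] (f : C(X, Y)) : Prop :=
  ∀ k : ℕ, CategoryTheory.IsIso
    (((AlgebraicTopology.singularHomologyFunctor (ModuleCat.{0} (ZMod p)) k).obj
      (ModuleCat.of (ZMod p) (ZMod p))).map (TopCat.ofHom f))

theorem ModPIso.comp {p : ℕ} {X Y Z : Type} [TopologicalSpace X] [TopologicalSpace Y]
    [TopologicalSpace Z] {f : C(X, Y)} {g : C(Y, Z)} (hf : ModPIso p f) (hg : ModPIso p g) :
    ModPIso p (g.comp f) := by
  intro k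
  have h1 := hf k
  have h2 := hg k
  have e : TopCat.ofHom (g.comp f) =
    CategoryTheory.CategoryStruct.comp (TopCat.ofHom f) (TopCat.ofHom g) := rfl
  rw [e, CategoryTheory.Functor.map_comp]
  exact CategoryTheory.IsIso.comp_isIso

end Pool.PF
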