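import Pool.Agent.Work.MP_25ef30_pf.Plane
import Pool.Agent.Work.MP_25ef30_pf.Simp
import Pool.Agent.Work.MP_25ef30_pf.Pi

/-!
# The published theorems used for MP_25ef30_gt
-/

set_option autoImplicit false
set_option linter.unusedSectionVars false

open scoped Topology

namespace Pool.PF

/-- the rotation group -/
def SO (q : ℕ) : Type := ↥(Matrix.specialOrthogonalGroup (Fin q) ℝ)

noncomputable instance (q : ℕ) : Group (SO q) :=
  Matrix.instGroupSubtypeMemSubmonoidSpecialUnitaryGroup

instance (q : ℕ) : TopologicalSpace (SO q) := instTopologicalSpaceSubtype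

/-- the subgroup `P` is closed and its identity component is commutative -/
def ToralId {G : Type} [Group G] [TopologicalSpace G] (P : Subgroup G) : Prop :=
  IsClosed (P : Set G) ∧
    ∀ a ∈ connectedComponent (1 : P), ∀ b ∈ connectedComponent (1 : P), a * b = b * a

/-! ### Algebraic topology -/

/-- S. Jackowski, J. McClure, R. Oliver, Homotopy classification of self-maps of `BG` via
`G`-actions, Ann. of Math. 135 (1992), Theorem 1.4, for `G = SO(q)`: the homotopy colimit of the
`E G ×_G (G ⧸ P)` over the orbits of the `ℓ`-stubborn subgroups `P` (extensions of finite `ℓ`-groups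
by tori) is `B G` in homology with coefficients in `ℤ/ℓ`. -/
def JMO : Prop :=
  ∀ q : ℕ, 2 ≤ q → ∀ ℓ : ℕ, ℓ.Prime → ∃ 𝒟 : OrbDiag (SO q), Nonempty 𝒟.R.O ∧
    (∀ r, ToralId (𝒟.P r)) ∧ ModPIso ℓ (rl 𝒟.topBG)

/-- J. Milnor, On the homology of Lie groups made discrete, Comment. Math. Helv. 58 (1983): for a
compact Lie group `P` with commutative identity component `B P^δ → B P` is an isomorphism of
homology with finite coefficients; for `P ≤ G` closed `E G ×_G (G ⧸ P)` is a model of `B P`. -/
def MilnorDiscrete : Prop :=
  ∀ q : ℕ, 2 ≤ q → ∀ ℓ : ℕ, ℓ.Prime → ∀ P : Subgroup (SO q), ToralId P →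
    ModPIso ℓ (rl (BorDisc (SO q) (SO q ⧸ P)))

/-- A. K. Bousfield and D. Kan, Homotopy limits, completions and localizations, LNM 304 (1972),
Ch. XII: homotopy colimits preserve isomorphisms of homology. -/
def BousfieldKan : Prop :=
  ∀ ℓ : ℕ, ℓ.Prime → ∀ (R : Idx) (D D' : Dia R) (α : DMap D D'),
    (∀ r, ModPIso ℓ (rl (α.a r))) → ModPIso ℓ (rl (Hoc.map α))

/-- The space `T` is local for isomorphisms of homology with coefficients in `ℤ/p`: for every such
isomorphism `f : A → B` and every point `a` the pointed homotopy classes of maps `A → T` and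
`B → T` correspond. -/
structure IsLocal (p : ℕ) (T : SS) : Prop where
  ext : ∀ (A B : SS) (f : C(Rl A, Rl B)), ModPIso p f → ∀ (a : Rl A) (t : Rl T) (u : Pt a t),
    ∃ v : Pt (f a) t, (v.f.comp f).HomotopicRel u.f {a}
  uniq : ∀ (A B : SS) (f : C(Rl A, Rl B)), ModPIso p f → ∀ (a : Rl A) (t : Rl T)
    (v w : Pt (f a) t), (v.f.comp f).HomotopicRel (w.f.comp f) {a} → PHom v w

/-- A. K. Bousfield, The localization of spaces with respect to homology, Topology 14 (1975):
simply connected spaces have simply connected localizations. -/
def BousfieldLocal : Prop :=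
  ∀ ℓ : ℕ, ℓ.Prime → ∀ S : SS, SimplyConnectedSpace (Rl S) →
    ∃ (T : SS) (η : C(Rl S, Rl T)), SimplyConnectedSpace (Rl T) ∧ ModPIso ℓ η ∧ IsLocal ℓ T

/-- J-P. Serre, Groupes d'homotopie et classes de groupes abeliens, Ann. of Math. 58 (1953), and
P. Hilton, G. Mislin, J. Roitberg, Localization of nilpotent groups and spaces (1975): for an
isomorphism of homology with coefficients in `ℤ/ℓ` between simply connected spaces the kernels on
the homotopy groups are `ℓ`-divisible and the cokernels have no `ℓ`-torsion. -/
def ModWhitehead : Prop :=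
  ∀ ℓ : ℕ, ℓ.Prime → ∀ (S T : SS) (x : Rl S) (y : Rl T) (f : Pt x y),
    SimplyConnectedSpace (Rl S) → SimplyConnectedSpace (Rl T) → ModPIso ℓ f.f → ∀ m : ℕ,
    (∀ a, piHom m f a = 1 → ∃ b, piHom m f b = 1 ∧ b ^ ℓ = a) ∧
    ∀ c, c ^ ℓ ∈ (piHom m f).range → c ∈ (piHom m f).range

/-- H. Hopf (1941) and J-P. Serre (1953): the homotopy groups of even degree of a compact Lie group
are finite, so those of odd degree of its classifying space are finite. -/
def FiniteOdd : Prop :=
  ∀ q : ℕ, 2 ≤ q → ∀ n : ℕ, Odd n → ∀ z : Rl (BG (SO q)), Finite (PiG n _ z)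

/-- J-P. Serre (1951): the homotopy groups of the classifying space `B SO(q)` are finitely
generated. -/
def FinGenBSO : Prop :=
  ∀ q : ℕ, 2 ≤ q → ∀ (m : ℕ) (z : Rl (BG (SO q))), Group.FG (PiG (m + 2) (Rl (BG (SO q))) z)

/-- The group `SO(q)` is connected, so its classifying space is simply connected. -/
def SimplyConnectedBSO : Prop := ∀ q : ℕ, 2 ≤ q → SimplyConnectedSpace (Rl (BG (SO q)))

/-- the published theorems of algebraic topology which are used for the lifting of torsion -/
structure TopologyFacts : Prop where
  jmo : JMO
  milnor : MilnorDiscrete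
  bousfieldKan : BousfieldKan
  bousfield : BousfieldLocal
  whitehead : ModWhitehead
  simplyConnected : SimplyConnectedBSO

/-! ### Spaces between `B SO(q)^δ` and `B SO(q)` -/

/-- the space `X` is between `B SO(q)^δ` and `B SO(q)` -/
structure Between (q : ℕ) (X : SS) where
  /-- the map from the discrete classifying space -/
  lin : C(Rl (BG (Disc (SO q))), Rl X)
  /-- the map to the classifying space -/
  ν : C(Rl X, Rl (BG (SO q)))
  comp : ν.comp lin = rl (BGdisc (SO q))

/-- the map `π_n(X) → π_n(B SO(q))` is onto (for some base point) -/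
def Between.Onto {q : ℕ} {X : SS} (b : Between q X) (n : ℕ) : Prop :=
  ∃ x : Rl X, Function.Surjective (piMap n (Pt.of b.ν x))

/-- the elements of finite order of `π_(m+2)(B SO(q))` are in the image of `π_(m+2)(X)` (for some
base point) -/
def Between.TorsionLifts {q : ℕ} {X : SS} (b : Between q X) (m : ℕ) : Prop :=
  ∃ x : Rl X, ∀ a : PiG (m + 2) (Rl (BG (SO q))) (b.ν x), IsOfFinOrder a →
    a ∈ Set.range (piMap (m + 2) (Pt.of b.ν x))

/-! ### Foliations -/

/-- W. Thurston, Existence of codimension-one foliations, Ann. of Math. 104 (1976): hyperplane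
fields on closed manifolds are homotopic to integrable ones. -/
def Thurston76 : Prop := ∀ p : ℕ, AllIntegrable (p + 1) p

/-- A. Haefliger, Homotopy and integrability, LNM 197 (1971), and W. Thurston, The theory of
foliations of codimension greater than one, Comment. Math. Helv. 49 (1974).  `X` is Haefliger's
classifying space of oriented structures of codimension `q ≥ 2`, `ν` classifies the normal bundle
and `lin` the structures of flat bundles.  If every oriented `q`-plane bundle on the sphere of
dimension `p + q` is the normal bundle of a Haefliger structure, then all `p`-plane fields on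
the homotopy spheres of this dimension are homotopic to integrable ones. -/
def Thurston74 : Prop :=
  ∀ q : ℕ, 2 ≤ q → ∃ (X : SS) (b : Between q X), SimplyConnectedSpace (Rl X) ∧
    ∀ p : ℕ, b.Onto (p + q) → AllIntegrable (p + q) p

/-- N. Steenrod, The topology of fibre bundles (1951), for the sphere; J. Milnor and J. Stasheff,
Characteristic classes (1974), in general: the Euler class of the tangent bundle of a homotopy
sphere of even dimension is not zero, so this bundle has no proper subbundles. -/
def NoEvenFields : Prop :=
  ∀ (n p : ℕ) (M : Mfd n), Even n → 0 < p → p < n → IsSphere M → IsEmpty (PlaneField M p)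

/-- the published theorems on plane fields and foliations which are used -/
structure FoliationFacts : Prop where
  thurston76 : Thurston76
  thurston74 : Thurston74
  euler : NoEvenFields

end Pool.PF
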