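import Pool.Agent.Work.MP_25ef30_pf.Facts

/-!
# Lifting of homotopy classes and the answer to Q1 (MP_25ef30_gt)
-/

set_option autoImplicit false
set_option linter.unusedSectionVars false

open scoped Topology

namespace Pool.PF

/-! ### Algebra -/

section algebra

/-- a subgroup of a finite group which contains all elements of prime power order is everything -/
theorem eq_top_of_primary {Γ : Type} [Group Γ] [Finite Γ] (H : Subgroup Γ)
    (h : ∀ ℓ : ℕ, ℓ.Prime → ∀ (k : ℕ) (a : Γ), a ^ ℓ ^ k = 1 → a ∈ H) : H = ⊤ := by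
  by_contra hH
  have hi : H.index ≠ 1 := fun h1 => hH (Subgroup.index_eq_one.1 h1)
  obtain ⟨ℓ, hℓ, hd⟩ := Nat.exists_prime_and_dvd hi
  have := Fact.mk hℓ
  obtain ⟨P⟩ : Nonempty (Sylow ℓ Γ) := inferInstance
  have hP : (P : Subgroup Γ) ≤ H := by
    intro a ha
    obtain ⟨k, hk⟩ := P.isPGroup' ⟨a, ha⟩
    exact h ℓ hℓ k a (congrArg Subtype.val hk)
  have h1 : H.index ∣ (P : Subgroup Γ).index := Subgroup.index_dvd_of_le hP
  exact P.not_dvd_index (hd.trans h1)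

/-- a subgroup which contains all elements of prime power order contains all elements of finite
order -/
theorem mem_of_primary {Γ : Type} [Group Γ] (H : Subgroup Γ)
    (h : ∀ ℓ : ℕ, ℓ.Prime → ∀ (k : ℕ) (a : Γ), a ^ ℓ ^ k = 1 → a ∈ H) (a : Γ)
    (ha : IsOfFinOrder a) : a ∈ H := by
  have hf : Finite (Subgroup.zpowers a) := by
    have := isOfFinOrder_iff_zpow_eq_one.1 ha
    exact (Set.finite_coe_iff.2 ha.finite_zpowers)
  have h1 : H.subgroupOf (Subgroup.zpowers a) = ⊤ := by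
    refine eq_top_of_primary _ fun ℓ hℓ k b hb => ?_
    exact h ℓ hℓ k b (congrArg Subtype.val hb)
  have h2 : (⟨a, Subgroup.mem_zpowers a⟩ : Subgroup.zpowers a) ∈
      H.subgroupOf (Subgroup.zpowers a) := by
    rw [h1]
    exact Subgroup.mem_top _
  exact h2

/-- an `ℓ`-divisible subgroup of a finitely generated commutative group is killed by a number which
is `1` modulo `ℓ` -/
theorem exists_killing {Γ : Type} [CommGroup Γ] [Group.FG Γ] (N : Subgroup Γ) (ℓ : ℕ)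
    (h : ∀ a ∈ N, ∃ b ∈ N, b ^ ℓ = a) : ∃ s : ℤ, ∀ a ∈ N, a ^ (1 + ℓ * s) = 1 := by
  have hfg : Module.Finite ℤ (Additive Γ) :=
    Module.Finite.iff_addGroup_fg.2 (AddGroup.fg_iff_mul_fg.2 inferInstance)
  have hno : IsNoetherian ℤ (Additive Γ) := isNoetherian_of_isNoetherianRing_of_finite ℤ _
  set N' : Submodule ℤ (Additive Γ) := AddSubgroup.toIntSubmodule (Subgroup.toAddSubgroup N)
    with hN'
  have hle : N' ≤ Ideal.span {(ℓ : ℤ)} • N' := by
    intro a ha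
    obtain ⟨b, hb, hba⟩ := h a.toMul ha
    have h1 : a = (ℓ : ℤ) • (Additive.ofMul b) := by
      rw [natCast_zsmul, ← ofMul_pow, hba]
      rfl
    rw [h1]
    exact Submodule.smul_mem_smul (Ideal.mem_span_singleton_self _) hb
  obtain ⟨r, hr, hz⟩ := Submodule.exists_sub_one_mem_and_smul_eq_zero_of_fg_of_le_smul
    (Ideal.span {(ℓ : ℤ)}) N' (IsNoetherian.noetherian N') hle
  obtain ⟨s, hs⟩ := Ideal.mem_span_singleton'.1 hr
  refine ⟨s, fun a ha => ?_⟩
  have h2 := hz (Additive.ofMul a) ha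
  have h3 : r = 1 + ℓ * s := by linear_combination -hs
  rw [h3, ← ofMul_zpow] at h2
  exact ofMul_eq_zero.1 h2

variable {A Â Γ Γ' : Type} [Group A] [CommGroup Â] [CommGroup Γ] [Group.FG Γ] [Group Γ']

/-- the lifting of the elements of prime power order -/
theorem mem_range_of_primary {ℓ : ℕ} (ν : A →* Γ) (η : A →* Â) (ζ : Γ →* Γ')
    (s : Γ →* Â) (φ : Â →* Γ') (h1 : ∀ x, φ (η x) = ζ (ν x)) (h2 : ∀ a, φ (s a) = ζ a)
    (hker : ∀ a, ζ a = 1 → ∃ b, ζ b = 1 ∧ b ^ ℓ = a)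
    (hcok : ∀ c : Â, c ^ ℓ ∈ η.range → c ∈ η.range) (k : ℕ) (a : Γ) (ha : a ^ ℓ ^ k = 1) :
    a ∈ ν.range := by
  -- the image of `a` in `Â` comes from `A`
  have hc : ∀ (k : ℕ) (c : Â), c ^ ℓ ^ k = 1 → c ∈ η.range := by
    intro k
    induction k with
    | zero =>
      intro c hc
      rw [pow_zero, pow_one] at hc
      rw [hc]
      exact one_mem _
    | succ k ih =>
      intro c hc
      refine hcok c (ih _ ?_)
      rw [← pow_mul, ← pow_succ', hc]
  obtain ⟨x, hx⟩ := hc k (s a) (by rw [← map_pow, ha, map_one])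
  -- the difference is in the kernel of `ζ`, which is killed by a number prime to `ℓ`
  set d : Γ := (ν x)⁻¹ * a with hd
  have hdk : d ∈ ζ.ker := by
    rw [MonoidHom.mem_ker, hd, map_mul, map_inv, ← h1, hx, h2, inv_mul_cancel]
  obtain ⟨t, ht⟩ := exists_killing ζ.ker ℓ hker
  set r : ℤ := 1 + ℓ * t with hr
  have har : a ^ r = ν (x ^ r) := by
    have h4 : a = ν x * d := by rw [hd, mul_inv_cancel_left]
    conv_lhs => rw [h4]
    rw [mul_zpow, ht d hdk, mul_one, map_zpow]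
  have hcop : IsCoprime r ((ℓ : ℤ) ^ k) := by
    refine IsCoprime.pow_right ⟨1, -t, ?_⟩
    rw [hr]
    ring
  obtain ⟨u, w, huw⟩ := hcop
  have hfin : a = ν (x ^ r) ^ u := by
    have h5 : (a ^ ((ℓ : ℤ) ^ k)) = 1 := by
      rw [← Nat.cast_pow, zpow_natCast, ha]
    calc a = a ^ (1 : ℤ) := (zpow_one a).symm
      _ = (a ^ r) ^ u * (a ^ ((ℓ : ℤ) ^ k)) ^ w := by
        conv_lhs => rw [← huw]
        rw [zpow_add, ← zpow_mul, ← zpow_mul, mul_comm u, mul_comm w]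
      _ = _ := by rw [h5, one_zpow, mul_one, har]
  have hmem : ν (x ^ r) ∈ ν.range := ⟨x ^ r, rfl⟩
  rw [hfin]
  exact Subgroup.zpow_mem ν.range hmem _

end algebra

/-! ### The model of `B G` at a prime -/

/-- for every prime there are a simplicial set `Y` and a map `Y → B G^δ` so that the composition
with `B G^δ → B G` is an isomorphism of homology with coefficients in `ℤ/ℓ` -/
theorem exists_model (K : TopologyFacts) {q : ℕ} (hq : 2 ≤ q) {ℓ : ℕ} (hℓ : ℓ.Prime) :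
    ∃ (Y : SS) (y : SMap Y (BG (Disc (SO q)))) (v : Y.X 0),
      y.f 0 v = BGpt (SO q) ∧ ModPIso ℓ (rl ((BGdisc (SO q)).comp y)) := by
  obtain ⟨𝒟, hne, hP, hiso⟩ := K.jmo q hq ℓ hℓ
  obtain ⟨v⟩ := 𝒟.nonempty
  refine ⟨Hoc 𝒟.disc, 𝒟.discBG, v, BG_vertex _ _ _, ?_⟩
  rw [𝒟.square, rl_comp]
  refine ModPIso.comp ?_ hiso
  exact K.bousfieldKan ℓ hℓ 𝒟.R 𝒟.disc 𝒟.top 𝒟.disc_top fun r => K.milnor q hq ℓ hℓ _ (hP r)

/-! ### The lifting theorem -/

/-- Let `B SO(q)^δ → X → B SO(q)` be a factorization of the canonical map with `X` simply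
connected.  Then the elements of finite order of the finitely generated groups `π_n(B SO(q))`,
`n ≥ 2`, are in the image of `π_n(X)`. -/
theorem torsion_lifting (K : TopologyFacts) {q : ℕ} (hq : 2 ≤ q) (X : SS) (b : Between q X)
    (hX : SimplyConnectedSpace (Rl X)) {m : ℕ}
    (hfg : ∀ z : Rl (BG (SO q)), Group.FG (PiG (m + 2) (Rl (BG (SO q))) z)) :
    b.TorsionLifts m := by
  set x₀ : Rl X := b.lin (vtx (BGpt (SO q))) with hx₀
  set z₀ : Rl (BG (SO q)) := b.ν x₀ with hz₀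
  have hZ := K.simplyConnected q hq
  have hfg' : Group.FG (PiG (m + 2) (Rl (BG (SO q))) z₀) := hfg z₀
  set N : Pt x₀ z₀ := Pt.of b.ν x₀ with hN
  refine ⟨x₀, ?_⟩
  have hsurj : ∀ a : PiG (m + 2) (Rl (BG (SO q))) z₀, IsOfFinOrder a → a ∈ (piHom m N).range := by
    refine mem_of_primary _ fun ℓ hℓ k a ha => ?_
    obtain ⟨Y, y, v, hv, hiso⟩ := exists_model K hq hℓ
    obtain ⟨X', ηX, hX', hηX, hlX⟩ := K.bousfield ℓ hℓ X hX
    obtain ⟨Z', ηZ, hZ', hηZ, hlZ⟩ := K.bousfield ℓ hℓ (BG (SO q)) hZ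
    have hk : rl ((BGdisc (SO q)).comp y) = b.ν.comp (b.lin.comp (rl y)) := by
      rw [rl_comp, ← b.comp]
      rfl
    have hyv : rl y (vtx v) = vtx (BGpt (SO q)) := by rw [rl_vtx, hv]
    have hlyv : (b.lin.comp (rl y)) (vtx v) = x₀ := by
      show b.lin (rl y (vtx v)) = x₀
      rw [hyv]
    have hkv : rl ((BGdisc (SO q)).comp y) (vtx v) = z₀ := by
      rw [hk]
      show b.ν ((b.lin.comp (rl y)) (vtx v)) = z₀
      rw [hlyv]
    -- the maps `s : Z → X'` and `f : X' → Z'`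
    obtain ⟨⟨s, hspt⟩, hs⟩ := hlX.ext Y (BG (SO q)) _ hiso (vtx v) (ηX x₀)
      ⟨ηX.comp (b.lin.comp (rl y)), congrArg ηX hlyv⟩
    obtain ⟨f, hf⟩ := hlZ.ext X X' ηX hηX x₀ (ηZ z₀) ⟨ηZ.comp b.ν, rfl⟩
    let s' : Pt z₀ (ηX x₀) := ⟨s, by rw [← hkv]; exact hspt⟩
    -- `f ∘ s ≃ ηZ`
    let fs : Pt z₀ (ηZ z₀) := ⟨f.f.comp s, (congrArg f.f s'.pt).trans f.pt⟩
    have hfs : PHom fs (Pt.of ηZ z₀) := by
      have h1 : ((f.f.comp s).comp (rl ((BGdisc (SO q)).comp y))).HomotopicRel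
          (f.f.comp (ηX.comp (b.lin.comp (rl y)))) {vtx v} :=
        ContinuousMap.HomotopicRel.comp_continuousMap hs f.f
      have h2 : ((f.f.comp ηX).comp (b.lin.comp (rl y))).HomotopicRel
          ((ηZ.comp b.ν).comp (b.lin.comp (rl y))) {vtx v} :=
        homotopicRel_precomp hf _ fun w hw => by
          rw [Set.mem_singleton_iff.1 hw, hlyv]
          exact Set.mem_singleton _
      have h3 : ((f.f.comp s).comp (rl ((BGdisc (SO q)).comp y))).HomotopicRel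
          (ηZ.comp (rl ((BGdisc (SO q)).comp y))) {vtx v} := by
        have h1' := h1
        rw [hk] at h1' ⊢
        exact h1'.trans h2
      have h4 := hlZ.uniq Y (BG (SO q)) _ hiso (vtx v) (ηZ z₀)
        ⟨f.f.comp s, by rw [hkv]; exact fs.pt⟩ ⟨ηZ, congrArg ηZ hkv⟩ h3
      have h5 : (f.f.comp s).HomotopicRel ηZ {rl ((BGdisc (SO q)).comp y) (vtx v)} := h4
      rw [hkv] at h5
      exact h5
    obtain ⟨hkerZ, -⟩ := K.whitehead ℓ hℓ _ _ z₀ (ηZ z₀) (Pt.of ηZ z₀) hZ hZ' hηZ m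
    obtain ⟨-, hcokX⟩ := K.whitehead ℓ hℓ _ _ x₀ (ηX x₀) (Pt.of ηX x₀) hX hX' hηX m
    refine mem_range_of_primary (piHom m N) (piHom m (Pt.of ηX x₀))
      (piHom m (Pt.of ηZ z₀)) (piHom m s') (piHom m f) ?_ ?_ hkerZ hcokX k a ha
    · intro c
      let e1 : Pt x₀ (ηZ z₀) := ⟨f.f.comp ηX, f.pt⟩
      let e2 : Pt x₀ (ηZ z₀) := ⟨ηZ.comp b.ν, rfl⟩
      show piMap (m + 2) f (piMap (m + 2) (Pt.of ηX x₀) c) =
        piMap (m + 2) (Pt.of ηZ z₀) (piMap (m + 2) N c)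
      rw [piMap_comp _ _ _ e1 rfl, piMap_comp _ _ _ e2 rfl]
      exact piMap_congr _ (f := e1) (g := e2) hf c
    · intro c
      show piMap (m + 2) f (piMap (m + 2) s' c) = piMap (m + 2) (Pt.of ηZ z₀) c
      rw [piMap_comp _ _ _ fs rfl]
      exact piMap_congr _ hfs c
  exact hsurj

/-- The map `π_n(X) → π_n(B SO(q))` is onto for `n` odd, `n ≥ 3`. -/
theorem lifting (K : TopologyFacts) (F : FiniteOdd) {q : ℕ} (hq : 2 ≤ q) (X : SS)
    (b : Between q X) (hX : SimplyConnectedSpace (Rl X)) {m : ℕ} (hm : Odd (m + 2)) :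
    b.Onto (m + 2) := by
  have hfin : ∀ z, Finite (PiG (m + 2) (Rl (BG (SO q))) z) := F q hq _ hm
  obtain ⟨x, hx⟩ := torsion_lifting K hq X b hX (m := m) fun z => inferInstance
  exact ⟨x, fun c => hx c (isOfFinOrder_of_finite c)⟩

/-! ### The answer -/

theorem answer (K : TopologyFacts) (F : FiniteOdd) (L : FoliationFacts) : Q1 := by
  intro n p M hM ξ
  have hne : Nonempty M.X := by
    obtain ⟨e⟩ := hM
    obtain ⟨x, hx⟩ : (Metric.sphere (0 : EuclideanSpace ℝ (Fin (n + 1))) 1).Nonempty :=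
      NormedSpace.sphere_nonempty.2 zero_le_one
    exact ⟨e.symm ⟨x, hx⟩⟩
  have hpn : p ≤ n := ξ.le
  rcases Nat.eq_zero_or_pos p with rfl | hp
  · exact ⟨ξ, ξ.integrable_zero, PlaneField.Homotopic.refl ξ⟩
  rcases hpn.eq_or_lt with rfl | hlt
  · exact ⟨ξ, ξ.integrable_top, PlaneField.Homotopic.refl ξ⟩
  rcases Nat.even_or_odd n with hev | hodd
  · exact ((L.euler n p M hev hp hlt hM).false ξ).elim
  obtain ⟨q, rfl⟩ : ∃ q, n = p + q := ⟨n - p, by omega⟩
  rcases Nat.lt_or_ge q 2 with hq | hq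
  · obtain rfl : q = 1 := by omega
    exact L.thurston76 p M hM ξ
  · obtain ⟨X, b, hX, hint⟩ := L.thurston74 q hq
    obtain ⟨m, hm⟩ : ∃ m, p + q = m + 2 := ⟨p + q - 2, by omega⟩
    refine hint p ?_ M hM ξ
    have := lifting K F hq X b hX (m := m) (by rw [← hm]; exact hodd)
    rw [hm]
    exact this

end Pool.PF
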