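import Mathlib

/-!
# Plane fields on closed manifolds (MP_25ef30_gt)

Plane fields (subbundles of the tangent bundle), homotopy, integrability, and the question Q1 of
Hurder.
-/

set_option autoImplicit false
set_option linter.unusedSectionVars false

open scoped Manifold ContDiff Topology

namespace Pool.PF

/-- the Euclidean space -/
def Euc (n : ℕ) : Type := EuclideanSpace ℝ (Fin n)

noncomputable instance (n : ℕ) : NormedAddCommGroup (Euc n) :=
  PiLp.normedAddCommGroup 2 fun _ : Fin n => ℝ

noncomputable instance (n : ℕ) : NormedSpace ℝ (Euc n) := PiLp.normedSpace 2 ℝ fun _ : Fin n => ℝ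

/-- smooth manifolds of dimension `n` -/
structure Mfd (n : ℕ) where
  /-- the points -/
  X : Type
  [top : TopologicalSpace X]
  [chart : ChartedSpace (Euc n) X]
  [smooth : IsManifold 𝓘(ℝ, Euc n) ∞ X]

attribute [instance] Mfd.top Mfd.chart Mfd.smooth

/-- the tangent spaces -/
def Tan {n : ℕ} (M : Mfd n) (x : M.X) : Type := TangentSpace 𝓘(ℝ, Euc n) x

noncomputable instance {n : ℕ} (M : Mfd n) (x : M.X) : AddCommGroup (Tan M x) :=
  NormedAddCommGroup.toAddCommGroup (E := Euc n)

noncomputable instance {n : ℕ} (M : Mfd n) (x : M.X) : Module ℝ (Tan M x) :=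
  NormedSpace.toModule (E := Euc n)

section

variable {n : ℕ} (M : Mfd n)

/-- the tangent bundle -/
def TB : Type := TangentBundle 𝓘(ℝ, Euc n) M.X

noncomputable instance : TopologicalSpace (TB M) :=
  inferInstanceAs (TopologicalSpace (TangentBundle 𝓘(ℝ, Euc n) M.X))

/-- the tangent vector `v` at `x` -/
def vec (x : M.X) (v : Tan M x) : TB M := (⟨x, v⟩ : TangentBundle 𝓘(ℝ, Euc n) M.X)

/-- The tangent vectors `s z` at `π z` depend continuously on `z ∈ U`. -/
def ContFamily {Z : Type} [TopologicalSpace Z] (π : Z → M.X) (s : (z : Z) → Tan M (π z))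
    (U : Set Z) : Prop :=
  ContinuousOn (fun z => vec M (π z) (s z)) U

/-- the vector field `V` is smooth near `x₀` -/
def SmoothAt (V : (x : M.X) → Tan M x) (x₀ : M.X) : Prop :=
  ContMDiffAt 𝓘(ℝ, Euc n) 𝓘(ℝ, Euc n).tangent ∞
    (fun x => (⟨x, V x⟩ : TangentBundle 𝓘(ℝ, Euc n) M.X)) x₀

/-- the Lie bracket -/
noncomputable def bracket (V W : (x : M.X) → Tan M x) (x₀ : M.X) : Tan M x₀ :=
  VectorField.mlieBracket 𝓘(ℝ, Euc n) V W x₀

/-- the span of `p` tangent vectors -/
noncomputable def spanOf {p : ℕ} {x : M.X} (v : Fin p → Tan M x) : Submodule ℝ (Tan M x) :=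
  Submodule.span ℝ (Set.range v)

/-- the manifold is homeomorphic to the sphere -/
def IsSphere : Prop := Nonempty (M.X ≃ₜ Metric.sphere (0 : EuclideanSpace ℝ (Fin (n + 1))) 1)

end

/-- A `p`-plane field on `M`, i.e. a subbundle of rank `p` of the tangent bundle: a subspace of every
tangent space, locally spanned by `p` continuous vector fields which are linearly independent at
every point. -/
structure PlaneField {n : ℕ} (M : Mfd n) (p : ℕ) where
  /-- the subspaces -/
  plane : (x : M.X) → Submodule ℝ (Tan M x)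
  frame : ∀ x₀ : M.X, ∃ (U : Set M.X) (s : Fin p → (x : M.X) → Tan M x), IsOpen U ∧ x₀ ∈ U ∧
    (∀ i, ContFamily M (fun x => x) (s i) U) ∧
    ∀ x ∈ U, LinearIndependent ℝ (fun i => s i x) ∧ spanOf M (fun i => s i x) = plane x

variable {n : ℕ} {M : Mfd n} {p : ℕ}

/-- The plane field is smooth: locally spanned by `p` smooth vector fields which are linearly
independent at every point. -/
def PlaneField.Smooth (ξ : PlaneField M p) : Prop :=
  ∀ x₀ : M.X, ∃ (U : Set M.X) (s : Fin p → (x : M.X) → Tan M x), IsOpen U ∧ x₀ ∈ U ∧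
    ∀ x ∈ U, (∀ i, SmoothAt M (s i) x) ∧ LinearIndependent ℝ (fun i => s i x) ∧
      spanOf M (fun i => s i x) = ξ.plane x

/-- The plane field is integrable: it is smooth and closed under the Lie bracket. -/
def PlaneField.Integrable (ξ : PlaneField M p) : Prop :=
  ξ.Smooth ∧ ∀ (V W : (x : M.X) → Tan M x) (x₀ : M.X), SmoothAt M V x₀ → SmoothAt M W x₀ →
    (∀ᶠ x in 𝓝 x₀, V x ∈ ξ.plane x ∧ W x ∈ ξ.plane x) → bracket M V W x₀ ∈ ξ.plane x₀

/-- The plane fields `ξ` and `η` are joined by a continuous family of plane fields: locally in the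
parameter and the point the family is spanned by `p` continuous families of tangent vectors. -/
def PlaneField.Homotopic (ξ η : PlaneField M p) : Prop :=
  ∃ ζ : unitInterval → PlaneField M p, ζ 0 = ξ ∧ ζ 1 = η ∧ ∀ z₀ : unitInterval × M.X,
    ∃ (U : Set (unitInterval × M.X)) (s : Fin p → (z : unitInterval × M.X) → Tan M z.2),
      IsOpen U ∧ z₀ ∈ U ∧ (∀ i, ContFamily M Prod.snd (s i) U) ∧
      ∀ z ∈ U, spanOf M (fun i => s i z) = (ζ z.1).plane z.2

/-- all `p`-plane fields on all smooth `n`-manifolds homeomorphic to the sphere are homotopic to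
integrable ones -/
def AllIntegrable (n p : ℕ) : Prop :=
  ∀ M : Mfd n, IsSphere M → ∀ ξ : PlaneField M p, ∃ η : PlaneField M p,
    η.Integrable ∧ ξ.Homotopic η

/-- Question Q1 (Hurder): every plane field on every closed smooth manifold which is homeomorphic
to a sphere is homotopic to an integrable one. -/
def Q1 : Prop := ∀ n p : ℕ, AllIntegrable n p

/-! ## The trivial cases -/

instance (n : ℕ) : FiniteDimensional ℝ (Euc n) :=
  inferInstanceAs (FiniteDimensional ℝ (EuclideanSpace ℝ (Fin n)))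

theorem finite_tan (x : M.X) : FiniteDimensional ℝ (Tan M x) :=
  inferInstanceAs (FiniteDimensional ℝ (Euc n))

theorem finrank_euc (n : ℕ) : Module.finrank ℝ (Euc n) = n := by
  show Module.finrank ℝ (EuclideanSpace ℝ (Fin n)) = n
  rw [finrank_euclideanSpace, Fintype.card_fin]

theorem finrank_tan (x : M.X) : Module.finrank ℝ (Tan M x) = n := finrank_euc n

theorem PlaneField.finrank_eq (ξ : PlaneField M p) (x : M.X) :
    Module.finrank ℝ (ξ.plane x) = p := by
  obtain ⟨U, s, -, hx, -, h⟩ := ξ.frame x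
  obtain ⟨h1, h2⟩ := h x hx
  rw [← h2]
  have := finrank_span_eq_card h1
  rw [spanOf, this, Fintype.card_fin]

theorem PlaneField.Homotopic.refl (ξ : PlaneField M p) : ξ.Homotopic ξ := by
  refine ⟨fun _ => ξ, rfl, rfl, ?_⟩
  rintro ⟨t₀, x₀⟩
  obtain ⟨U, s, hU, hx, hs, h⟩ := ξ.frame x₀
  refine ⟨Prod.snd ⁻¹' U, fun i z => s i z.2, hU.preimage continuous_snd, hx, ?_, ?_⟩
  · intro i
    exact (hs i).comp continuous_snd.continuousOn fun z hz => hz
  · intro z hz
    exact (h z.2 hz).2

theorem bracket_zero_aux {E X : Type} [NormedAddCommGroup E] [NormedSpace ℝ E]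
    [TopologicalSpace X] [ChartedSpace E X] (V W : (x : X) → TangentSpace 𝓘(ℝ, E) x) (x₀ : X)
    (h : ∀ᶠ x in 𝓝 x₀, V x = 0) : VectorField.mlieBracket 𝓘(ℝ, E) V W x₀ = 0 := by
  have h0 : V =ᶠ[𝓝 x₀] (0 : (x : X) → TangentSpace 𝓘(ℝ, E) x) := h
  rw [Filter.EventuallyEq.mlieBracket_vectorField_eq h0 (Filter.EventuallyEq.refl _ W),
    VectorField.mlieBracket_zero_left]
  rfl

/-- The zero field is integrable. -/
theorem PlaneField.integrable_zero (ξ : PlaneField M 0) : ξ.Integrable := by
  have hbot : ∀ x, ξ.plane x = ⊥ := fun x => by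
    have := finite_tan x
    exact Submodule.finrank_eq_zero.1 (ξ.finrank_eq x)
  refine ⟨?_, ?_⟩
  · intro x₀
    refine ⟨Set.univ, fun i => i.elim0, isOpen_univ, Set.mem_univ _, fun x _ =>
      ⟨fun i => i.elim0, linearIndependent_empty_type, ?_⟩⟩
    rw [hbot x, spanOf, Set.range_eq_empty, Submodule.span_empty]
  · intro V W x₀ _ _ hV
    have h2 : bracket M V W x₀ = 0 := by
      refine bracket_zero_aux (E := Euc n) V W x₀ ?_
      filter_upwards [hV] with x hx
      have hx1 := hx.1
      rw [hbot x] at hx1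
      exact hx1
    rw [h2]
    exact Submodule.zero_mem _

/-- The field of all tangent vectors is integrable. -/
theorem PlaneField.integrable_top (ξ : PlaneField M n) : ξ.Integrable := by
  have htop : ∀ x, ξ.plane x = ⊤ := by
    intro x
    have := finite_tan x
    apply Submodule.eq_top_of_finrank_eq
    rw [ξ.finrank_eq x, finrank_tan]
  refine ⟨?_, ?_⟩
  · intro x₀
    let e := trivializationAt (Euc n) (TangentSpace 𝓘(ℝ, Euc n) : M.X → Type) x₀
    let b : Module.Basis (Fin n) ℝ (Euc n) := Module.finBasisOfFinrankEq ℝ (Euc n) (finrank_euc n)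
    have hfr : IsLocalFrameOn 𝓘(ℝ, Euc n) (Euc n) ∞ (e.localFrame b) e.baseSet :=
      e.isLocalFrameOn_localFrame_baseSet 𝓘(ℝ, Euc n) ∞ b
    refine ⟨e.baseSet, e.localFrame b, e.open_baseSet,
      FiberBundle.mem_baseSet_trivializationAt' x₀, fun x hx => ⟨fun i => ?_, ?_, ?_⟩⟩
    · exact (hfr.contMDiffOn i).contMDiffAt (e.open_baseSet.mem_nhds hx)
    · exact hfr.linearIndependent hx
    · rw [htop x]
      exact top_le_iff.1 (hfr.generating hx)
  · intro V W x₀ _ _ _
    rw [htop x₀]
    exact Submodule.mem_top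

theorem PlaneField.le [Nonempty M.X] (ξ : PlaneField M p) : p ≤ n := by
  obtain ⟨x⟩ := ‹Nonempty M.X›
  have := finite_tan x
  have h := Submodule.finrank_le (ξ.plane x)
  rwa [ξ.finrank_eq x, finrank_tan] at h

end Pool.PF
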